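import Pool.Agent.H161R7.DiscSearch

set_option autoImplicit false

/-!
MP_ad55ca_co: the lower bound `7 / √17` (about 1.6977) for the optimal constant `C^*` in the
discrepancy bound for square sign matrices, by a sign matrix of order 17 with discrepancy at
least 7.
-/

namespace Pool.Agent.Results.MP_ad55ca_co.SeventeenSeven

/-- a sign matrix: all entries are `1` or `-1` -/
def IsSign {n : ℕ} (A : Matrix (Fin n) (Fin n) ℝ) : Prop := ∀ i j, A i j = 1 ∨ A i j = -1

/-- the discrepancy of `A`: the minimum over the sign vectors `x` of the maximum absolute value of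
a coordinate of `A x` (the norm of `Fin n → ℝ` is the maximum norm) -/
noncomputable def disc {n : ℕ} (A : Matrix (Fin n) (Fin n) ℝ) : ℝ :=
  ⨅ x : {x : Fin n → ℝ // ∀ j, x j = 1 ∨ x j = -1}, ‖A.mulVec x.1‖

/-- the supremum of `disc A / √n` over all `n ≥ 1` and all sign matrices `A` of order `n`, as an
extended real number -/
noncomputable def Cstar : EReal :=
  ⨆ (n : ℕ) (_ : 1 ≤ n) (A : Matrix (Fin n) (Fin n) ℝ) (_ : IsSign A),
    ((disc A / √(n : ℝ) : ℝ) : EReal)

open Pool.Agent.H161R7.DiscSearch in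
/-- the matrix of order 17 -/
noncomputable def A17 : Matrix (Fin 17) (Fin 17) ℝ := fun i j => if bitM i j then 1 else -1

lemma isSign_A17 : IsSign A17 := by
  intro i j
  unfold A17
  split_ifs <;> simp

open Pool.Agent.H161R7.DiscSearch in
lemma seven_le (x : Fin 17 → ℝ) (hx : ∀ j, x j = 1 ∨ x j = -1) : 7 ≤ ‖A17.mulVec x‖ := by
  classical
  set b : ℕ → Bool := fun j => if h : j < 17 then decide (x ⟨j, h⟩ = 1) else false with hb
  obtain ⟨i, hi, h⟩ := search17 b
  have hbj : ∀ j : Fin 17, b j = decide (x j = 1) := by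
    intro j
    simp only [hb, Fin.is_lt, dite_true, Fin.eta]
  have hval : A17.mulVec x ⟨i, hi⟩ = 2 * ((∑ j : Fin 17, (bitM i j == b j).toNat : ℕ) : ℝ) - 17 := by
    have hterm : ∀ j : Fin 17, A17 ⟨i, hi⟩ j * x j = 2 * (((bitM i j == b j).toNat : ℕ) : ℝ) - 1 := by
      intro j
      rw [hbj j]
      unfold A17
      rcases hx j with h1 | h1
      · rw [h1]
        cases hbit : bitM i j
        · simp
        · simp; norm_num
      · have hne : ¬ ((-1 : ℝ) = 1) := by norm_num
        rw [h1]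
        cases hbit : bitM i j
        · simp [hne]; norm_num
        · simp [hne]
    show ∑ j, A17 ⟨i, hi⟩ j * x j = _
    rw [Finset.sum_congr rfl (fun j _ => hterm j), Finset.sum_sub_distrib, ← Finset.mul_sum]
    push_cast
    simp
  have habs : (7 : ℝ) ≤ ‖A17.mulVec x ⟨i, hi⟩‖ := by
    rw [hval, Real.norm_eq_abs]
    rcases h with h | h
    · have h' : (12 : ℝ) ≤ ((∑ j : Fin 17, (bitM i j == b j).toNat : ℕ) : ℝ) := by exact_mod_cast h
      refine le_trans ?_ (le_abs_self _)
      linarith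
    · have h' : ((∑ j : Fin 17, (bitM i j == b j).toNat : ℕ) : ℝ) ≤ 5 := by exact_mod_cast h
      refine le_trans ?_ (neg_le_abs _)
      linarith
  exact habs.trans (norm_le_pi_norm _ _)

lemma seven_le_disc : 7 ≤ disc A17 := by
  unfold disc
  have : Nonempty {x : Fin 17 → ℝ // ∀ j, x j = 1 ∨ x j = -1} := ⟨⟨fun _ => 1, fun _ => Or.inl rfl⟩⟩
  exact le_ciInf (fun x => seven_le x.1 x.2)

/-- `C^* ≥ 7 / √17`. -/
theorem result : ((7 / √(17 : ℝ) : ℝ) : EReal) ≤ Cstar := by
  unfold Cstar
  refine le_iSup_of_le 17 (le_iSup_of_le (by norm_num) (le_iSup_of_le A17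
    (le_iSup_of_le isSign_A17 ?_)))
  rw [EReal.coe_le_coe_iff]
  have h17 : (0 : ℝ) < √(17 : ℝ) := Real.sqrt_pos.mpr (by norm_num)
  have hcast : ((17 : ℕ) : ℝ) = 17 := by norm_num
  rw [hcast]
  exact div_le_div_of_nonneg_right seven_le_disc h17.le

end Pool.Agent.Results.MP_ad55ca_co.SeventeenSeven
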